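import Mathlib
import Pool.Agent.H211NG.Closed

/-!
# The Nordhaus–Gaddum product of the independent domination number

For every `n ≥ 1` the maximum of `i(G) i(Gᶜ)` over all graphs `G` with `n` vertices is
`max (n, ⌊(⌊n/2⌋ + 2)² / 4⌋ + ε)`, where `ε = 1` if `n ≥ 3` is odd and `n` or `n + 1` is a perfect
square, and `ε = 0` otherwise. More precisely the possible pairs are determined: for `a, b ≥ 1` there
is a graph with `i(G) ≥ a + 1` and `i(Gᶜ) ≥ b + 1` if and only if `√a + √b ≤ √n`.

Proof of the inequality `√a + √b ≤ √n`: if every vertex lies in a clique with `b + 1` vertices there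
is a set `D` such that every vertex outside `D` has a `b`-clique of `D` in its neighbourhood, and every
`d ∈ D` has a private vertex outside `D`, all of whose `b`-cliques in `D` contain `d`. A maximal
independent set through a vertex of `D` which lies in many of the cliques misses so many vertices that
`b x + a y ≤ x y` for `y = |D|`, `x = n - y`.
-/

set_option autoImplicit false

namespace Pool.Agent.Results.MP_04d992_co.ExactMaximum

open Pool.Agent.H211NG

/-- (1) The maximum `M(n)` of `i(G) i(Gᶜ)` over the graphs with `n` vertices, for every `n ≥ 1`.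
(2) The pairs `(i(G), i(Gᶜ))`: lower bounds `a + 1`, `b + 1` with `a, b ≥ 1` are possible exactly if
`√a + √b ≤ √n`. (3) In particular `M(n) ≤ (n + 4)² / 16`, with equality exactly if `4 ∣ n`. -/
theorem result :
    (∀ n : ℕ, 1 ≤ n →
      IsGreatest {m : ℕ | ∃ G : SimpleGraph (Fin n), indepDom G * indepDom Gᶜ = m}
        (max n ((n / 2 + 2) ^ 2 / 4 +
          if n % 2 = 1 ∧ 3 ≤ n ∧ (IsSquare n ∨ IsSquare (n + 1)) then 1 else 0))) ∧
    (∀ n a b : ℕ, 1 ≤ n → 1 ≤ a → 1 ≤ b →
      ((∃ G : SimpleGraph (Fin n), a + 1 ≤ indepDom G ∧ b + 1 ≤ indepDom Gᶜ) ↔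
        √(a : ℝ) + √(b : ℝ) ≤ √(n : ℝ))) ∧
    (∀ n : ℕ, 1 ≤ n →
      (∀ G : SimpleGraph (Fin n), 16 * (indepDom G * indepDom Gᶜ) ≤ (n + 4) ^ 2) ∧
      ((∃ G : SimpleGraph (Fin n), 16 * (indepDom G * indepDom Gᶜ) = (n + 4) ^ 2) ↔ 4 ∣ n)) := by
  refine ⟨fun n hn => ?_, fun n a b hn ha hb => pairs n a b hn ha hb, fun n hn => ⟨fun G => ?_, ?_⟩⟩
  · have h := value_eq_closed n hn
    unfold closed at h
    rw [← h]
    refine ⟨attained n hn, ?_⟩
    rintro m ⟨G, rfl⟩
    exact upper n hn G
  · exact (Nat.mul_le_mul_left 16 (upper n hn G)).trans (value_le n)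
  · rw [← value_eq_iff n hn]
    constructor
    · rintro ⟨G, hG⟩
      refine le_antisymm (value_le n) ?_
      rw [← hG]
      exact Nat.mul_le_mul_left 16 (upper n hn G)
    · intro h
      obtain ⟨G, hG⟩ := attained n hn
      exact ⟨G, by rw [hG, h]⟩

end Pool.Agent.Results.MP_04d992_co.ExactMaximum
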